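import Mathlib

/-!
# The Rogers–Ramanujan continued fraction on the unit circle: statements

Plan (helper64). `aa x n = A_{n-1}`, `bb x n = B_{n-1}` in the notation of the problem. For irrational
`t` there are infinitely many `m` (with `m t = c + δ`, `m |δ| ≤ 1/2`) such that `aa, bb` at `m`, `m+1`
are bounded for `x = e(t)`. By Schur's identities they are combinations of the sums `ZZ`, and the
terms of `ZZ` with `0 < l < m` have size about `1 / |J l|` with `J l = l c mod m`, and quadratic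
phases.
-/

set_option autoImplicit false

namespace Pool.Agent.Y64.RR

open Finset

/-- `e(x) = exp (2 π i x)` -/
noncomputable def ee (x : ℝ) : ℂ := Complex.exp (2 * Real.pi * x * Complex.I)

/-- Gaussian binomial coefficients. -/
def gb (x : ℂ) : ℕ → ℕ → ℂ
  | _, 0 => 1
  | 0, _ + 1 => 0
  | n + 1, k + 1 => gb x n (k + 1) + x ^ (n - k) * gb x n k

/-- Gaussian binomial coefficients with an integral lower index. -/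
def gbz (x : ℂ) (n : ℕ) (k : ℤ) : ℂ := if 0 ≤ k then gb x n k.toNat else 0

/-- `aa x n = A_{n-1}(x)` -/
def aa (x : ℂ) : ℕ → ℂ
  | 0 => 1
  | 1 => 1
  | n + 2 => aa x (n + 1) + x ^ (n + 1) * aa x n

/-- `bb x n = B_{n-1}(x)` -/
def bb (x : ℂ) : ℕ → ℂ
  | 0 => 0
  | 1 => 1
  | n + 2 => bb x (n + 1) + x ^ (n + 1) * bb x n

/-- Schur's finite identity for `aa`. -/
def StA : Prop := ∀ (x : ℂ) (n : ℕ), aa x n =
  ∑ k ∈ Finset.Icc (-(n : ℤ)) n, (-1 : ℂ) ^ k.natAbs * x ^ (k * (5 * k + 1) / 2).toNat *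
    gbz x n ((n - 5 * k) / 2)

/-- Schur's finite identity for `bb`. -/
def StB : Prop := ∀ (x : ℂ) (n : ℕ), bb x n =
  ∑ k ∈ Finset.Icc (-(n : ℤ)) n, (-1 : ℂ) ^ k.natAbs * x ^ (k * (5 * k - 3) / 2).toNat *
    gbz x n ((n - 5 * k) / 2 + 1)

/-- The sums over a residue class modulo five. -/
noncomputable def ZZ (t : ℝ) (m : ℕ) (r κ : ℤ) : ℂ :=
  ∑ l ∈ (range (m + 1)).filter (fun l : ℕ => (l : ℤ) ≡ r [ZMOD 5]),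
    ee (t * (2 * (l : ℝ) ^ 2 + κ * l - 2 * m * l) / 5) * gb (ee t) m l

/-- Reduction to the sums `ZZ`. -/
def StSCH : Prop := ∀ (t : ℝ) (m : ℕ), 1 ≤ m → ∀ C : ℝ,
  (∀ r κ : ℤ, -4 ≤ κ → κ ≤ 1 → ‖ZZ t m r κ‖ ≤ C) →
    ‖aa (ee t) m‖ ≤ 2 * C ∧ ‖bb (ee t) m‖ ≤ 2 * C ∧
    ‖aa (ee t) (m + 1)‖ ≤ 4 * C ∧ ‖bb (ee t) (m + 1)‖ ≤ 4 * C

/-- The factors of the Gaussian binomials. -/
noncomputable def wf (t δ : ℝ) (i : ℕ) : ℝ :=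
  Real.sin (Real.pi * (i * t - δ)) / Real.sin (Real.pi * (i * t))

/-- Their product. -/
noncomputable def gg (t δ : ℝ) (l : ℕ) : ℝ := ∏ i ∈ Finset.Ico 1 l, wf t δ i

/-- The product formula for the Gaussian binomials at `m`, where `m t = c + δ`. -/
def StQB : Prop := ∀ (t δ : ℝ) (m : ℕ) (c : ℤ), m * t = c + δ →
  (∀ i : ℕ, 1 ≤ i → i < m → Real.sin (Real.pi * (i * t)) ≠ 0) → ∀ l : ℕ, 1 ≤ l → l < m →
    gb (ee t) m l = -(ee (t * l * (m - l) / 2) * ee ((c + 1) * l / 2)) *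
      ((Real.sin (Real.pi * δ) / Real.sin (Real.pi * (l * t)) * gg t δ l : ℝ) : ℂ)

/-- `ρ` is badly approximable up to the denominator `m`. -/
def Bad (E : ℝ) (m : ℕ) (ρ : ℝ) : Prop :=
  ∀ b : ℕ, 1 ≤ b → b < m → ∀ a : ℤ, 1 / (E * b) ≤ |b * ρ - a|

/-- The parameters. -/
structure Par (E C₁ : ℝ) (m : ℕ) (c : ℤ) (δ t : ℝ) : Prop where
  hm : 1 ≤ m
  cop : IsCoprime c (m : ℤ)
  ht : m * t = c + δ
  hδ : m * |δ| ≤ 1 / 2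
  hE : 1 ≤ E
  hC : E * (m * |δ|) ≤ C₁
  bad : Bad E m (c / m)

/-- Main bound. -/
def StMain : Prop := ∀ C₁ : ℝ, ∃ C₂ : ℝ, ∀ (E : ℝ) (m : ℕ) (c : ℤ) (δ t : ℝ), Par E C₁ m c δ t →
  ∀ r κ : ℤ, -4 ≤ κ → κ ≤ 1 → ‖ZZ t m r κ‖ ≤ C₂

/-- Diophantine input. -/
def StDIO : Prop := ∀ t : ℝ, Irrational t → ∃ C₁ : ℝ, ∀ M : ℕ, ∃ (m : ℕ) (c : ℤ) (δ E : ℝ),
  M ≤ m ∧ Par E C₁ m c δ t

/-- Discrepancy of the rotation by `ρ`. -/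
def StCnt : Prop := ∃ C : ℝ, 0 < C ∧ ∀ (E : ℝ) (m : ℕ) (ρ : ℝ), 1 ≤ E → Bad E m ρ →
  ∀ (N₀ : ℤ) (N : ℕ), 1 ≤ N → N ≤ m → ∀ β u v : ℝ, 0 ≤ u → u ≤ v → v ≤ 1 →
    |(((Finset.Ico N₀ (N₀ + N)).filter (fun i : ℤ => u ≤ Int.fract (i * ρ + β) ∧
      Int.fract (i * ρ + β) < v)).card : ℝ) - N * (v - u)| ≤ C * E * √N

/-- Quadratic exponential sums over the visits to an interval. -/
def StExp : Prop := ∃ C : ℝ, 0 < C ∧ ∀ (E : ℝ) (m : ℕ) (ρ : ℝ), 1 ≤ E → Bad E m ρ →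
  ∀ (N₀ : ℤ) (N : ℕ), 1 ≤ N → N ≤ m → ∀ β γ u v : ℝ, 0 ≤ u → u ≤ v → v ≤ 1 →
    ‖∑ i ∈ (Finset.Ico N₀ (N₀ + N)).filter (fun i : ℤ => u ≤ Int.fract (i * ρ + β) ∧
      Int.fract (i * ρ + β) < v), ee (-10 * ρ * (i : ℝ) ^ 2 + γ * i)‖ ≤
        C * √E * (N : ℝ) ^ (15 / 16 : ℝ)

/-- `l c` modulo `m`, in `[-m/2, m/2)`. -/
def JJ (c : ℤ) (m : ℕ) (l : ℕ) : ℤ := Int.bmod (l * c) m

/-- The rough part of the phase. -/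
noncomputable def ph (c : ℤ) (m : ℕ) (κ : ℤ) (l : ℕ) : ℝ :=
  -(c * (l : ℝ) ^ 2) / (10 * m) + κ * c * l / (5 * m) + c * l / 10 + (c + 1) * l / 2 +
    (l * c - JJ c m l) / m / 2

/-- The smooth part of the phase. -/
noncomputable def sm (δ : ℝ) (m : ℕ) (κ : ℤ) (l : ℕ) : ℝ :=
  -(δ * (l : ℝ) ^ 2) / (10 * m) + κ * δ * l / (5 * m) + δ * l / 10

/-- Exponential sums with the rough phase. -/
def StExpL : Prop := ∃ C : ℝ, 0 < C ∧ ∀ (E : ℝ) (m : ℕ) (c : ℤ), 1 ≤ E → 1 ≤ m →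
  IsCoprime c (m : ℤ) → Bad E m (c / m) → ∀ (r κ J₀ : ℤ) (X l' : ℕ), 1 ≤ X →
    -(m : ℤ) ≤ 2 * (J₀ + 1) → 2 * (J₀ + X) < m → (0 ≤ J₀ ∨ J₀ + X < 0) →
    ‖∑ l ∈ (range m).filter (fun l : ℕ => l ≤ l' ∧ J₀ < JJ c m l ∧ JJ c m l ≤ J₀ + X ∧
      (l : ℤ) ≡ r [ZMOD 5]), ee (ph c m κ l)‖ ≤ C * √E * (X : ℝ) ^ (15 / 16 : ℝ)

/-- Cotangent sums. -/
def StCot : Prop := ∃ C : ℝ, 0 < C ∧ ∀ (E : ℝ) (m : ℕ) (c : ℤ), 1 ≤ E → 1 ≤ m →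
  IsCoprime c (m : ℤ) → Bad E m (c / m) → ∀ Y l : ℕ, 1 ≤ Y → l ≤ m →
    |∑ i ∈ (Finset.Ico 1 l).filter (fun i : ℕ => (Y : ℤ) < |JJ c m i|),
      Real.cos (Real.pi * (JJ c m i / m)) / Real.sin (Real.pi * (JJ c m i / m))| ≤ C * E * m / √Y

/-- The product of the factors with `|J| ≤ Y`. -/
noncomputable def hh (t δ : ℝ) (c : ℤ) (m Y : ℕ) (l : ℕ) : ℝ :=
  ∏ i ∈ (Finset.Ico 1 l).filter (fun i : ℕ => |JJ c m i| ≤ (Y : ℤ)), wf t δ i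

/-- Bounds for the products. -/
def StG : Prop := ∀ C₁ : ℝ, ∃ C : ℝ, 0 < C ∧ ∀ (E : ℝ) (m : ℕ) (c : ℤ) (δ t : ℝ),
  Par E C₁ m c δ t → ∀ Y : ℕ, 1 ≤ Y →
    (∀ l : ℕ, l ≤ m → |hh t δ c m Y l| ≤ C) ∧
    (∀ l : ℕ, l ≤ m → |gg t δ l - hh t δ c m Y l| ≤ C / √Y) ∧
    ∑ i ∈ Finset.Ico 1 m, |hh t δ c m Y (i + 1) - hh t δ c m Y i| ≤ C * (1 + Real.log Y)

/-- The final statement: the sequence `A_n / B_n` (with value `∞` if `B_n = 0`) has no limit in the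
Riemann sphere if `x` is on the unit circle and not a root of unity. -/
noncomputable def approx (x : ℂ) (n : ℕ) : OnePoint ℂ :=
  open Classical in if bb x (n + 1) = 0 then OnePoint.infty else ((aa x (n + 1) / bb x (n + 1) : ℂ) : OnePoint ℂ)

def StTop : Prop := ∀ x : ℂ, ‖x‖ = 1 → (∀ n : ℕ, 0 < n → x ^ n ≠ 1) →
  ¬ ∃ κ : OnePoint ℂ, Filter.Tendsto (approx x) Filter.atTop (nhds κ)

end Pool.Agent.Y64.RR
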